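import Pool.Agent.Helper98.CK.Sp

/-!
An algebra of matrices that is stable under conjugation by integral matrices which reduce to symplectic transvections
consists of scalars or of all matrices.
-/

open Matrix

namespace Pool.Agent.Helper98.CK

variable {K : Type*} [Field K] {m : Type*} [Fintype m] [DecidableEq m]

/-- reductions of the integral elements of an algebra of matrices -/
noncomputable def red98 (O : ValuationSubring K) (A : Subalgebra K (Matrix m m K)) :
    Subalgebra (IsLocalRing.ResidueField O) (Matrix m m (IsLocalRing.ResidueField O)) :=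
  { (A.toSubring.comap (algebraMap O K).mapMatrix).map (IsLocalRing.residue O).mapMatrix with
    algebraMap_mem' := by
      intro c
      obtain ⟨d, rfl⟩ := IsLocalRing.residue_surjective c
      refine ⟨algebraMap O (Matrix m m O) d, ?_, ?_⟩
      · show (algebraMap O K).mapMatrix (algebraMap O (Matrix m m O) d) ∈ A
        have : (algebraMap O K).mapMatrix (algebraMap O (Matrix m m O) d) = algebraMap K (Matrix m m K) (d : K) := by
          ext i j
          simp only [Matrix.algebraMap_matrix_apply, RingHom.mapMatrix_apply, Matrix.map_apply]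
          split_ifs <;> simp
        rw [this]
        exact A.algebraMap_mem _
      · ext i j
        simp only [Matrix.algebraMap_matrix_apply, RingHom.mapMatrix_apply, Matrix.map_apply]
        split_ifs <;> simp }

theorem mem_red98 (O : ValuationSubring K) (A : Subalgebra K (Matrix m m K))
    (x : Matrix m m (IsLocalRing.ResidueField O)) : x ∈ red98 O A ↔
    ∃ a : Matrix m m O, a.map (algebraMap O K) ∈ A ∧ a.map (IsLocalRing.residue O) = x := Iff.rfl

omit [DecidableEq m] in
/-- an entry of largest value -/
theorem exists_max98 (O : ValuationSubring K) (a : Matrix m m K) (ha : a ≠ 0) :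
    ∃ c : K, c ≠ 0 ∧ (∀ i j, c⁻¹ * a i j ∈ O) ∧ ∃ i j, c⁻¹ * a i j = 1 := by
  have hne : ∃ i j, a i j ≠ 0 := by
    by_contra hc
    push Not at hc
    exact ha (by ext i j; exact hc i j)
  obtain ⟨i1, j1, h1⟩ := hne
  obtain ⟨⟨i0, j0⟩, -, hmax⟩ := Finset.exists_max_image (Finset.univ : Finset (m × m))
    (fun p => O.valuation (a p.1 p.2)) ⟨(i1, j1), Finset.mem_univ _⟩
  have h0 : a i0 j0 ≠ 0 := by
    intro h0
    have := hmax (i1, j1) (Finset.mem_univ _)
    simp only [h0, map_zero, le_zero_iff, map_eq_zero] at this
    exact h1 this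
  refine ⟨a i0 j0, h0, ?_, i0, j0, inv_mul_cancel₀ h0⟩
  intro i j
  rw [← ValuationSubring.valuation_le_one_iff, map_mul, map_inv₀]
  have h2 := hmax (i, j) (Finset.mem_univ _)
  have h3 : O.valuation (a i0 j0) ≠ 0 := by simpa using h0
  rw [inv_mul_le_iff₀ (zero_lt_iff.2 h3), mul_one]
  exact h2

theorem lift_alg (O : ValuationSubring K) (h2 : (2 : IsLocalRing.ResidueField O) ≠ 0)
    {J : Matrix m m (IsLocalRing.ResidueField O)} (hJ : IsUnit J.det) (hJa : ∀ v, B98 J v v = 0)
    (V : Set (m → IsLocalRing.ResidueField O)) (hadd : ∀ v ∈ V, ∀ w ∈ V, v + w ∈ V)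
    (hspan : Submodule.span (IsLocalRing.ResidueField O) V = ⊤)
    (A : Subalgebra K (Matrix m m K))
    (hA : ∀ v ∈ V, ∃ g h : Matrix m m O, g * h = 1 ∧ g.map (IsLocalRing.residue O) = 1 + E98 J v v ∧
      ∀ a ∈ A, g.map (algebraMap O K) * a * h.map (algebraMap O K) ∈ A ∧
        h.map (algebraMap O K) * a * g.map (algebraMap O K) ∈ A) :
    A = ⊥ ∨ A = ⊤ := by
  classical
  have hred : red98 O A = ⊥ ∨ red98 O A = ⊤ := by
    refine sp_alg h2 hJ hJa V hadd hspan _ fun v hv x hx => ?_
    obtain ⟨g, h, hgh, hg, hst⟩ := hA v hv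
    obtain ⟨a, ha, rfl⟩ := (mem_red98 O A x).1 hx
    have e1 : (1 - E98 J v v) * (1 + E98 J v v) = 1 := by
      have : E98 J v v * E98 J v v = 0 := by rw [E_mul_E, hJa, zero_smul]
      calc (1 - E98 J v v) * (1 + E98 J v v) = 1 - E98 J v v * E98 J v v := by noncomm_ring
        _ = 1 := by rw [this, sub_zero]
    have hh : h.map (IsLocalRing.residue O) = 1 - E98 J v v := by
      have h3 : g.map (IsLocalRing.residue O) * h.map (IsLocalRing.residue O) = 1 := by
        rw [← Matrix.map_mul, hgh]
        simp
      rw [hg] at h3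
      calc h.map (IsLocalRing.residue O) = ((1 - E98 J v v) * (1 + E98 J v v)) * h.map (IsLocalRing.residue O) := by
            rw [e1, one_mul]
        _ = 1 - E98 J v v := by rw [mul_assoc, h3, mul_one]
    constructor
    · rw [mem_red98]
      refine ⟨g * a * h, ?_, ?_⟩
      · rw [Matrix.map_mul, Matrix.map_mul]
        exact (hst _ ha).1
      · rw [Matrix.map_mul, Matrix.map_mul, hg, hh]
    · rw [mem_red98]
      refine ⟨h * a * g, ?_, ?_⟩
      · rw [Matrix.map_mul, Matrix.map_mul]
        exact (hst _ ha).2
      · rw [Matrix.map_mul, Matrix.map_mul, hg, hh]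
  rcases hred with hb | ht
  · left
    refine le_antisymm ?_ bot_le
    intro a ha
    by_cases hm : Nonempty m
    · obtain ⟨i0⟩ := hm
      by_contra hna
      set b : Matrix m m K := a - algebraMap K (Matrix m m K) (a i0 i0) with hb'
      have hbA : b ∈ A := A.sub_mem ha (A.algebraMap_mem _)
      have hb0 : b ≠ 0 := by
        intro h0
        apply hna
        rw [Algebra.mem_bot]
        exact ⟨a i0 i0, (sub_eq_zero.1 h0).symm⟩
      have hbi : b i0 i0 = 0 := by
        rw [hb', Matrix.sub_apply, Matrix.algebraMap_matrix_apply]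
        simp
      obtain ⟨c, hc0, hcO, i, j, hij⟩ := exists_max98 O b hb0
      let d : Matrix m m O := Matrix.of fun i j => ⟨c⁻¹ * b i j, hcO i j⟩
      have hd : d.map (algebraMap O K) = c⁻¹ • b := by
        ext k l
        rfl
      have hdA : d.map (IsLocalRing.residue O) ∈ red98 O A := by
        rw [mem_red98]
        exact ⟨d, by rw [hd]; exact A.smul_mem hbA _, rfl⟩
      rw [hb, Algebra.mem_bot] at hdA
      obtain ⟨e, he⟩ := hdA
      have he0 : e = 0 := by
        have h4 := congrFun (congrFun he i0) i0
        rw [Matrix.algebraMap_matrix_apply] at h4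
        simp only [if_true, Algebra.algebraMap_self, RingHom.id_apply, Matrix.map_apply] at h4
        rw [h4]
        have h5 : d i0 i0 = 0 := by
          apply Subtype.ext
          show c⁻¹ * b i0 i0 = 0
          rw [hbi, mul_zero]
        rw [h5, map_zero]
      have h6 := congrFun (congrFun he i) j
      rw [he0, map_zero] at h6
      have h7 : d i j = 1 := by
        apply Subtype.ext
        exact hij
      simp only [Matrix.zero_apply, Matrix.map_apply, h7, map_one] at h6
      exact zero_ne_one h6
    · have : IsEmpty m := not_nonempty_iff.1 hm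
      rw [Algebra.mem_bot]
      exact ⟨0, Subsingleton.elim _ _⟩
  · right
    have hch : ∀ p : m × m, ∃ a : Matrix m m O, a.map (algebraMap O K) ∈ A ∧
        a.map (IsLocalRing.residue O) = Matrix.single p.1 p.2 1 := by
      intro p
      rw [← mem_red98, ht]
      trivial
    choose t htA htr using hch
    let T : Matrix (m × m) (m × m) O := Matrix.of fun p q => t p q.1 q.2
    have hT : T.map (IsLocalRing.residue O) = 1 := by
      ext ⟨i, j⟩ ⟨k, l⟩
      have := congrFun (congrFun (htr (i, j)) k) l
      simp only [Matrix.map_apply] at this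
      simp only [T, Matrix.map_apply, Matrix.of_apply, this, Matrix.single_apply, Matrix.one_apply, Prod.mk.injEq]
    have hdet : IsUnit T.det := by
      rw [← isUnit_map_iff (IsLocalRing.residue O), RingHom.map_det, RingHom.mapMatrix_apply, hT, Matrix.det_one]
      exact isUnit_one
    have hD : IsUnit (T.map (algebraMap O K)).det := by
      rw [← RingHom.mapMatrix_apply, ← RingHom.map_det]
      exact hdet.map _
    have hsing : ∀ i j : m, Matrix.single i j (1 : K) ∈ A := by
      intro i j
      have h1 : Matrix.single i j (1 : K) = ∑ p, ((T.map (algebraMap O K))⁻¹ (i, j) p) • (t p).map (algebraMap O K) := by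
        ext k l
        have h2 := congrFun (congrFun (Matrix.nonsing_inv_mul _ hD) (i, j)) (k, l)
        rw [Matrix.mul_apply] at h2
        rw [Matrix.sum_apply]
        simp only [Matrix.smul_apply, Matrix.map_apply, smul_eq_mul]
        simp only [T, Matrix.map_apply, Matrix.of_apply] at h2
        rw [h2, Matrix.single_apply, Matrix.one_apply]
        simp only [Prod.mk.injEq]
      rw [h1]
      exact A.sum_mem fun p _ => A.smul_mem (htA p) _
    rw [eq_top_iff]
    intro M _
    rw [Matrix.matrix_eq_sum_single M]
    refine A.sum_mem fun i _ => A.sum_mem fun j _ => ?_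
    have : Matrix.single i j (M i j) = M i j • Matrix.single i j (1 : K) := by
      rw [Matrix.smul_single, smul_eq_mul, mul_one]
    rw [this]
    exact A.smul_mem (hsing i j) _

end Pool.Agent.Helper98.CK
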