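import Mathlib

/-!
A matrix algebra that is stable under conjugation by symplectic transvections consists of scalars or of all matrices.
-/

open Matrix

namespace Pool.Agent.Helper98.CK

variable {F : Type*} [Field F] {m : Type*} [Fintype m]

/-- the bilinear form with matrix `J` -/
def B98 (J : Matrix m m F) (x w : m → F) : F := x ⬝ᵥ J *ᵥ w

/-- `x ↦ B (x, w) v` -/
def E98 (J : Matrix m m F) (v w : m → F) : Matrix m m F := vecMulVec v (J *ᵥ w)

variable (J : Matrix m m F)

theorem B_add_left (x y w : m → F) : B98 J (x + y) w = B98 J x w + B98 J y w := by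
  simp [B98, add_dotProduct]

theorem B_add_right (x y w : m → F) : B98 J x (y + w) = B98 J x y + B98 J x w := by
  simp [B98, mulVec_add, dotProduct_add]

theorem B_smul_left (c : F) (x w : m → F) : B98 J (c • x) w = c * B98 J x w := by
  simp [B98, smul_dotProduct]

theorem B_smul_right (c : F) (x w : m → F) : B98 J x (c • w) = c * B98 J x w := by
  simp [B98, mulVec_smul, dotProduct_smul]

theorem B_sub_left (x y w : m → F) : B98 J (x - y) w = B98 J x w - B98 J y w := by
  simp [B98, sub_dotProduct]

theorem B_sub_right (x y w : m → F) : B98 J x (y - w) = B98 J x y - B98 J x w := by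
  simp [B98, mulVec_sub, dotProduct_sub]

theorem B_zero_left (w : m → F) : B98 J 0 w = 0 := by simp [B98]

theorem E98_mulVec (v w x : m → F) : E98 J v w *ᵥ x = (B98 J x w) • v := by
  rw [E98, B98, vecMulVec_mulVec, dotProduct_comm]
  simp

theorem mul_E98 (a : Matrix m m F) (v w : m → F) : a * E98 J v w = E98 J (a *ᵥ v) w := by
  rw [E98, mul_vecMulVec, E98]

theorem E_mul_E (v w v' w' : m → F) : E98 J v w * E98 J v' w' = (B98 J v' w) • E98 J v w' := by
  rw [mul_E98, E98_mulVec, E98, E98, smul_vecMulVec]

theorem E_add_left (v v' w : m → F) : E98 J (v + v') w = E98 J v w + E98 J v' w := by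
  rw [E98, E98, E98, add_vecMulVec]

theorem E_add_right (v w w' : m → F) : E98 J v (w + w') = E98 J v w + E98 J v w' := by
  rw [E98, E98, E98, mulVec_add, vecMulVec_add]

theorem E_smul_left (c : F) (v w : m → F) : E98 J (c • v) w = c • E98 J v w := by
  rw [E98, E98, smul_vecMulVec]

theorem E_smul_right (c : F) (v w : m → F) : E98 J v (c • w) = c • E98 J v w := by
  rw [E98, E98, mulVec_smul, vecMulVec_smul]

theorem B_alt {J : Matrix m m F} (hJ : ∀ v, B98 J v v = 0) (x y : m → F) : B98 J x y = - B98 J y x := by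
  have h := hJ (x + y)
  rw [B_add_left, B_add_right, B_add_right, hJ, hJ] at h
  linear_combination h

variable [DecidableEq m]

theorem B_nondeg {J : Matrix m m F} (hJ : IsUnit J.det) {y : m → F} (h : ∀ x, B98 J x y = 0) : y = 0 := by
  have h1 : J *ᵥ y = 0 := by
    ext i
    have := h (Pi.single i 1)
    simpa [B98] using this
  have h2 := congrArg (fun z => J⁻¹ *ᵥ z) h1
  simpa [mulVec_mulVec, nonsing_inv_mul _ hJ] using h2

theorem sp_alg {J : Matrix m m F} (h2 : (2 : F) ≠ 0) (hJ : IsUnit J.det) (hJa : ∀ v, B98 J v v = 0)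
    (V : Set (m → F)) (hadd : ∀ v ∈ V, ∀ w ∈ V, v + w ∈ V) (hspan : Submodule.span F V = ⊤)
    (A : Subalgebra F (Matrix m m F))
    (hA : ∀ v ∈ V, ∀ a ∈ A, (1 + E98 J v v) * a * (1 - E98 J v v) ∈ A ∧ (1 - E98 J v v) * a * (1 + E98 J v v) ∈ A) :
    A = ⊥ ∨ A = ⊤ := by
  classical
  -- two elements of the algebra
  have k1 : ∀ v ∈ V, ∀ a ∈ A, B98 J (a *ᵥ v) v ≠ 0 → E98 J v v ∈ A := by
    intro v hv a ha hB
    have h := A.add_mem (hA v hv a ha).1 (hA v hv a ha).2
    have e : (1 + E98 J v v) * a * (1 - E98 J v v) + (1 - E98 J v v) * a * (1 + E98 J v v)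
        = (2 : F) • a - (2 * B98 J (a *ᵥ v) v : F) • E98 J v v := by
      have e1 : E98 J v v * a * E98 J v v = (B98 J (a *ᵥ v) v) • E98 J v v := by
        rw [mul_assoc, mul_E98, E_mul_E]
      rw [mul_smul, ← e1, two_smul, two_smul]
      noncomm_ring
    rw [e] at h
    have h3 := A.sub_mem (A.smul_mem ha (2 : F)) h
    rw [sub_sub_cancel] at h3
    have h4 := A.smul_mem h3 ((2 * B98 J (a *ᵥ v) v)⁻¹)
    rwa [smul_smul, inv_mul_cancel₀ (mul_ne_zero h2 hB), one_smul] at h4
  have k2 : ∀ v ∈ V, ∀ a ∈ A, E98 J v v * a - a * E98 J v v ∈ A := by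
    intro v hv a ha
    have h := A.sub_mem (hA v hv a ha).1 (hA v hv a ha).2
    have e : (1 + E98 J v v) * a * (1 - E98 J v v) - (1 - E98 J v v) * a * (1 + E98 J v v)
        = (2 : F) • (E98 J v v * a - a * E98 J v v) := by
      rw [two_smul]
      noncomm_ring
    rw [e] at h
    have h4 := A.smul_mem h ((2 : F)⁻¹)
    rwa [smul_smul, inv_mul_cancel₀ h2, one_smul] at h4
  have kV : ∀ v : m → F, v ≠ 0 → ∃ t ∈ V, B98 J t v ≠ 0 := by
    intro v hv
    by_contra hc
    push Not at hc
    apply hv
    apply B_nondeg hJ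
    intro x
    have hx : x ∈ Submodule.span F V := by rw [hspan]; trivial
    induction hx using Submodule.span_induction with
    | mem x hx => exact hc x hx
    | zero => exact B_zero_left J v
    | add x y _ _ h1 h2 => rw [B_add_left, h1, h2, add_zero]
    | smul c x _ h1 => rw [B_smul_left, h1, mul_zero]
  have kV2 : ∀ v w : m → F, v ≠ 0 → w ≠ 0 → ∃ t ∈ V, B98 J t v ≠ 0 ∧ B98 J t w ≠ 0 := by
    intro v w hv hw
    obtain ⟨t1, ht1, h1⟩ := kV v hv
    obtain ⟨t2, ht2, h2⟩ := kV w hw
    by_cases h3 : B98 J t1 w = 0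
    · by_cases h4 : B98 J t2 v = 0
      · refine ⟨t1 + t2, hadd _ ht1 _ ht2, ?_, ?_⟩
        · rw [B_add_left, h4, add_zero]; exact h1
        · rw [B_add_left, h3, zero_add]; exact h2
      · exact ⟨t2, ht2, h4, h2⟩
    · exact ⟨t1, ht1, h1, h3⟩
  by_cases hcase : ∃ v ∈ V, ∃ a ∈ A, B98 J (a *ᵥ v) v ≠ 0
  · right
    obtain ⟨v, hv, a, ha, hB⟩ := hcase
    have hE := k1 v hv a ha hB
    have hv0 : v ≠ 0 := by
      rintro rfl
      apply hB
      rw [mulVec_zero, B_zero_left]
    -- from one vector to another one
    have k3 : ∀ v ∈ V, E98 J v v ∈ A → ∀ u ∈ V, B98 J u v ≠ 0 → E98 J u u ∈ A := by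
      intro v hv hE u hu hB
      refine k1 u hu _ hE ?_
      rw [E98_mulVec, B_smul_left, B_alt hJa v u]
      exact mul_ne_zero hB (neg_ne_zero.2 hB)
    have k4 : ∀ u ∈ V, E98 J u u ∈ A := by
      intro u hu
      by_cases hu0 : u = 0
      · rw [hu0]
        have : E98 J (0 : m → F) 0 = 0 := by simp [E98]
        rw [this]
        exact A.zero_mem
      · obtain ⟨t, ht, h1, h2⟩ := kV2 v u hv0 hu0
        refine k3 t ht (k3 v hv hE t ht h1) u hu ?_
        rw [B_alt hJa]
        exact neg_ne_zero.2 h2
    have k5 : ∀ u ∈ V, ∀ w ∈ V, E98 J u w ∈ A := by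
      intro u hu w hw
      by_cases hu0 : u = 0
      · have : E98 J u w = 0 := by rw [hu0]; simp [E98]
        rw [this]
        exact A.zero_mem
      by_cases hw0 : w = 0
      · have : E98 J u w = 0 := by rw [hw0]; simp [E98]
        rw [this]
        exact A.zero_mem
      obtain ⟨t, ht, h1, h2⟩ := kV2 u w hu0 hw0
      have h3 := A.mul_mem (A.mul_mem (k4 u hu) (k4 t ht)) (k4 w hw)
      rw [E_mul_E, smul_mul_assoc, E_mul_E, smul_smul] at h3
      have h4 := A.smul_mem h3 ((B98 J t u * B98 J w t)⁻¹)
      have h5 : B98 J w t ≠ 0 := by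
        rw [B_alt hJa]
        exact neg_ne_zero.2 h2
      rwa [smul_smul, inv_mul_cancel₀ (mul_ne_zero h1 h5), one_smul] at h4
    have k6 : ∀ u w : m → F, E98 J u w ∈ A := by
      intro u w
      have hu : u ∈ Submodule.span F V := by rw [hspan]; trivial
      induction hu using Submodule.span_induction with
      | mem u hu =>
        have hw : w ∈ Submodule.span F V := by rw [hspan]; trivial
        induction hw using Submodule.span_induction with
        | mem w hw => exact k5 u hu w hw
        | zero =>
          have : E98 J u 0 = 0 := by simp [E98]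
          rw [this]
          exact A.zero_mem
        | add x y _ _ h1 h2 => rw [E_add_right]; exact A.add_mem h1 h2
        | smul c x _ h1 => rw [E_smul_right]; exact A.smul_mem h1 c
      | zero =>
        have : E98 J 0 w = 0 := by simp [E98]
        rw [this]
        exact A.zero_mem
      | add x y _ _ h1 h2 => rw [E_add_left]; exact A.add_mem h1 h2
      | smul c x _ h1 => rw [E_smul_left]; exact A.smul_mem h1 c
    rw [eq_top_iff]
    intro M _
    have hM : M = ∑ i, ∑ j, M i j • E98 J (Pi.single i 1) (J⁻¹ *ᵥ Pi.single j 1) := by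
      have h1 : ∀ i j : m, E98 J (Pi.single i (1 : F)) (J⁻¹ *ᵥ Pi.single j 1) = Matrix.single i j 1 := by
        intro i j
        rw [E98, mulVec_mulVec, mul_nonsing_inv _ hJ, one_mulVec]
        ext k l
        rw [vecMulVec_apply, Matrix.single_apply]
        by_cases hk : i = k
        · subst hk
          by_cases hl : j = l
          · subst hl; simp
          · simp [hl, Ne.symm hl]
        · simp [hk, Pi.single_apply, Ne.symm hk]
      simp only [h1]
      conv_lhs => rw [Matrix.matrix_eq_sum_single M]
      refine Finset.sum_congr rfl fun i _ => Finset.sum_congr rfl fun j _ => ?_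
      rw [Matrix.smul_single, smul_eq_mul, mul_one]
    rw [hM]
    exact A.sum_mem fun i _ => A.sum_mem fun j _ => A.smul_mem (k6 _ _) _
  · left
    push Not at hcase
    -- all elements are self-adjoint
    have s1 : ∀ a ∈ A, ∀ x y : m → F, B98 J (a *ᵥ x) y = B98 J x (a *ᵥ y) := by
      intro a ha x y
      have hx : x ∈ Submodule.span F V := by rw [hspan]; trivial
      induction hx using Submodule.span_induction with
      | mem x hx =>
        have hy : y ∈ Submodule.span F V := by rw [hspan]; trivial
        induction hy using Submodule.span_induction with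
        | mem y hy =>
          have h := hcase (x + y) (hadd _ hx _ hy) a ha
          rw [mulVec_add, B_add_left, B_add_right, B_add_right, hcase x hx a ha, hcase y hy a ha] at h
          rw [B_alt hJa x]
          linear_combination h
        | zero => simp [B98]
        | add y z _ _ h1 h2 => rw [B_add_right, mulVec_add, B_add_right, h1, h2]
        | smul c y _ h1 => rw [B_smul_right, mulVec_smul, B_smul_right, h1]
      | zero => simp [B98]
      | add x z _ _ h1 h2 => rw [B_add_left, mulVec_add, B_add_left, h1, h2]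
      | smul c x _ h1 => rw [B_smul_left, mulVec_smul, B_smul_left, h1]
    have nd : ∀ y z : m → F, (∀ x, B98 J x y = B98 J x z) → y = z := by
      intro y z h
      rw [← sub_eq_zero]
      apply B_nondeg hJ
      intro x
      rw [B_sub_right, h, sub_self]
    have s2 : ∀ a ∈ A, ∀ b ∈ A, a * b = b * a := by
      intro a ha b hb
      have h : ∀ y : m → F, (a * b) *ᵥ y = (b * a) *ᵥ y := by
        intro y
        apply nd
        intro x
        rw [← s1 _ (A.mul_mem ha hb), ← mulVec_mulVec, ← mulVec_mulVec, s1 a ha, s1 b hb]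
      exact Matrix.ext_of_mulVec_single fun i => h _
    have s3 : ∀ a ∈ A, ∀ v ∈ V, ∃ c : F, a *ᵥ v = c • v := by
      intro a ha v hv
      by_cases hv0 : v = 0
      · exact ⟨0, by rw [hv0]; simp⟩
      obtain ⟨x0, -, hx0⟩ := kV v hv0
      have hc := s2 a ha _ (k2 v hv a ha)
      have hc' : ∀ x, (2 * B98 J x (a *ᵥ v)) • (a *ᵥ v) = (B98 J x v) • (a *ᵥ (a *ᵥ v)) + (B98 J x (a *ᵥ (a *ᵥ v))) • v := by
        intro x
        have h := congrArg (fun M => M *ᵥ x) hc
        simp only [← mulVec_mulVec, sub_mulVec, mulVec_sub, E98_mulVec, mulVec_smul] at h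
        rw [s1 a ha x v, s1 a ha (a *ᵥ x) v, s1 a ha x (a *ᵥ v)] at h
        rw [mul_smul, two_smul]
        rw [sub_eq_sub_iff_add_eq_add] at h
        rw [h]
        abel
      by_cases hy : ∃ y, B98 J ((B98 J x0 v) • y - (B98 J y v) • x0) (a *ᵥ v) ≠ 0
      · obtain ⟨y, hy⟩ := hy
        have h := hc' ((B98 J x0 v) • y - (B98 J y v) • x0)
        have h0 : B98 J ((B98 J x0 v) • y - (B98 J y v) • x0) v = 0 := by
          rw [B_sub_left, B_smul_left, B_smul_left]
          ring
        rw [h0, zero_smul, zero_add] at h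
        have h4 := mul_ne_zero h2 hy
        refine ⟨(2 * B98 J ((B98 J x0 v) • y - (B98 J y v) • x0) (a *ᵥ v))⁻¹ *
          B98 J ((B98 J x0 v) • y - (B98 J y v) • x0) (a *ᵥ (a *ᵥ v)), ?_⟩
        rw [mul_smul, ← h, smul_smul, inv_mul_cancel₀ h4, one_smul]
      · push Not at hy
        refine ⟨(B98 J x0 v)⁻¹ * B98 J x0 (a *ᵥ v), ?_⟩
        apply nd
        intro y
        have h := hy y
        rw [B_sub_left, B_smul_left, B_smul_left] at h
        rw [B_smul_right]
        field_simp
        linear_combination h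
    refine le_antisymm ?_ bot_le
    intro a ha
    by_cases hV : ∃ v ∈ V, v ≠ 0
    · obtain ⟨v0, hv0, hne⟩ := hV
      obtain ⟨c, hc⟩ := s3 a ha v0 hv0
      have h5 : ∀ w ∈ V, a *ᵥ w = c • w := by
        intro w hw
        obtain ⟨d, hd⟩ := s3 a ha w hw
        obtain ⟨e, he⟩ := s3 a ha (v0 + w) (hadd _ hv0 _ hw)
        rw [mulVec_add, hc, hd, smul_add] at he
        by_cases hec : e = c
        · rw [hec] at he
          have := add_left_cancel he
          rw [hd, this]
        · have h6 : (c - e) • v0 = (e - d) • w := by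
            rw [sub_smul, sub_smul, sub_eq_sub_iff_add_eq_add, he]
            abel
          have h7 : c - e ≠ 0 := sub_ne_zero.2 (Ne.symm hec)
          have h8 : v0 = ((c - e)⁻¹ * (e - d)) • w := by
            rw [mul_smul, ← h6, smul_smul, inv_mul_cancel₀ h7, one_smul]
          have h9 : a *ᵥ v0 = d • v0 := by
            conv_lhs => rw [h8]
            rw [mulVec_smul, hd, smul_comm, ← h8]
          rw [hc] at h9
          have h10 : (c - d) • v0 = 0 := by rw [sub_smul, h9, sub_self]
          rcases smul_eq_zero.1 h10 with h11 | h11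
          · rw [hd, sub_eq_zero.1 h11]
          · exact absurd h11 hne
      rw [Algebra.mem_bot]
      refine ⟨c, ?_⟩
      refine (Matrix.ext_of_mulVec_single fun i => ?_).symm
      have h6 : ∀ x : m → F, a *ᵥ x = c • x := by
        intro x
        have hx : x ∈ Submodule.span F V := by rw [hspan]; trivial
        induction hx using Submodule.span_induction with
        | mem x hx => exact h5 x hx
        | zero => simp
        | add x y _ _ h1 h2 => rw [mulVec_add, h1, h2, smul_add]
        | smul k x _ h1 => rw [mulVec_smul, h1, smul_comm]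
      rw [h6, Algebra.algebraMap_eq_smul_one, smul_mulVec, one_mulVec]
    · push Not at hV
      have hsub : ∀ x : m → F, x = 0 := by
        intro x
        have hx : x ∈ Submodule.span F V := by rw [hspan]; trivial
        induction hx using Submodule.span_induction with
        | mem x hx => exact hV x hx
        | zero => rfl
        | add x y _ _ h1 h2 => rw [h1, h2, add_zero]
        | smul k x _ h1 => rw [h1, smul_zero]
      rw [Algebra.mem_bot]
      refine ⟨0, ?_⟩
      refine (Matrix.ext_of_mulVec_single fun i => ?_).symm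
      rw [hsub (a *ᵥ Pi.single i 1), hsub (_ *ᵥ Pi.single i 1)]

end Pool.Agent.Helper98.CK
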